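import Mathlib

set_option autoImplicit false

/-!
# Projective algebras of plane sets

Definitions (Everett and Ulam) and the description of the generated algebra by terms.
-/

namespace Pool.Agent.H699_PA

open Set

/-- the horizontal axis of the plane -/
def XAxis : Set (ℝ × ℝ) := {p | p.2 = 0}

/-- the vertical axis of the plane -/
def YAxis : Set (ℝ × ℝ) := {p | p.1 = 0}

/-- the projection of a plane set to the horizontal axis, as a plane set -/
def proj1 (S : Set (ℝ × ℝ)) : Set (ℝ × ℝ) := {p | p.2 = 0 ∧ ∃ y : ℝ, (p.1, y) ∈ S}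

/-- the projection of a plane set to the vertical axis, as a plane set -/
def proj2 (S : Set (ℝ × ℝ)) : Set (ℝ × ℝ) := {p | p.1 = 0 ∧ ∃ x : ℝ, (x, p.2) ∈ S}

/-- the direct product of a subset of the horizontal axis and a subset of the vertical axis -/
def dprod (A B : Set (ℝ × ℝ)) : Set (ℝ × ℝ) := {p | (p.1, (0 : ℝ)) ∈ A ∧ ((0 : ℝ), p.2) ∈ B}

/-- A projective algebra: a family of plane sets closed under the Boolean operations, the two
projections, and direct products of subsets of the two axes. -/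
structure IsProjectiveAlgebra (F : Set (Set (ℝ × ℝ))) : Prop where
  univ_mem : Set.univ ∈ F
  compl_mem : ∀ S ∈ F, Sᶜ ∈ F
  union_mem : ∀ S ∈ F, ∀ T ∈ F, S ∪ T ∈ F
  inter_mem : ∀ S ∈ F, ∀ T ∈ F, S ∩ T ∈ F
  proj1_mem : ∀ S ∈ F, proj1 S ∈ F
  proj2_mem : ∀ S ∈ F, proj2 S ∈ F
  dprod_mem : ∀ A ∈ F, ∀ B ∈ F, A ⊆ XAxis → B ⊆ YAxis → dprod A B ∈ F

/-- `φ` is an isomorphism of the projective algebra `F` onto the projective algebra `G`: a bijection
which preserves all the operations. -/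
structure IsIso (F G : Set (Set (ℝ × ℝ))) (φ : Set (ℝ × ℝ) → Set (ℝ × ℝ)) : Prop where
  bij : Set.BijOn φ F G
  map_compl : ∀ S ∈ F, φ Sᶜ = (φ S)ᶜ
  map_union : ∀ S ∈ F, ∀ T ∈ F, φ (S ∪ T) = φ S ∪ φ T
  map_inter : ∀ S ∈ F, ∀ T ∈ F, φ (S ∩ T) = φ S ∩ φ T
  map_proj1 : ∀ S ∈ F, φ (proj1 S) = proj1 (φ S)
  map_proj2 : ∀ S ∈ F, φ (proj2 S) = proj2 (φ S)
  map_dprod : ∀ A ∈ F, ∀ B ∈ F, A ⊆ XAxis → B ⊆ YAxis → φ (dprod A B) = dprod (φ A) (φ B)

/-- the projective algebras `F` and `G` are isomorphic -/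
def Isomorphic (F G : Set (Set (ℝ × ℝ))) : Prop := ∃ φ, IsIso F G φ

/-- the projective algebra generated by a family of plane sets: the smallest one which contains
the family -/
def generated (G : Set (Set (ℝ × ℝ))) : Set (Set (ℝ × ℝ)) :=
  ⋂₀ {F | IsProjectiveAlgebra F ∧ G ⊆ F}

theorem generated_isProjectiveAlgebra (G : Set (Set (ℝ × ℝ))) :
    IsProjectiveAlgebra (generated G) where
  univ_mem := fun _ hF => hF.1.univ_mem
  compl_mem := fun S hS F hF => hF.1.compl_mem S (hS F hF)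
  union_mem := fun S hS T hT F hF => hF.1.union_mem S (hS F hF) T (hT F hF)
  inter_mem := fun S hS T hT F hF => hF.1.inter_mem S (hS F hF) T (hT F hF)
  proj1_mem := fun S hS F hF => hF.1.proj1_mem S (hS F hF)
  proj2_mem := fun S hS F hF => hF.1.proj2_mem S (hS F hF)
  dprod_mem := fun A hA B hB h1 h2 F hF => hF.1.dprod_mem A (hA F hF) B (hB F hF) h1 h2

theorem subset_generated (G : Set (Set (ℝ × ℝ))) : G ⊆ generated G :=
  fun _ hS _ hF => hF.2 hS

theorem generated_min {G F : Set (Set (ℝ × ℝ))} (hF : IsProjectiveAlgebra F) (h : G ⊆ F) :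
    generated G ⊆ F := fun _ hS => hS F ⟨hF, h⟩

theorem proj1_univ : proj1 Set.univ = XAxis := by
  ext p; simp [proj1, XAxis]

theorem proj2_univ : proj2 Set.univ = YAxis := by
  ext p; simp [proj2, YAxis]

theorem dprod_axes (A B : Set (ℝ × ℝ)) : dprod (A ∩ XAxis) (B ∩ YAxis) = dprod A B := by
  ext p; simp [dprod, XAxis, YAxis]

theorem proj1_subset (S : Set (ℝ × ℝ)) : proj1 S ⊆ XAxis := fun _ h => h.1

theorem proj2_subset (S : Set (ℝ × ℝ)) : proj2 S ⊆ YAxis := fun _ h => h.1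

theorem proj1_eq_self {A : Set (ℝ × ℝ)} (h : A ⊆ XAxis) : proj1 A = A := by
  ext ⟨x, y⟩
  constructor
  · rintro ⟨h1, z, hz⟩
    have h2 : z = 0 := h hz
    subst h2
    have h3 : y = 0 := h1
    subst h3
    exact hz
  · intro h1
    exact ⟨h h1, y, h1⟩

theorem proj2_eq_self {A : Set (ℝ × ℝ)} (h : A ⊆ YAxis) : proj2 A = A := by
  ext ⟨x, y⟩
  constructor
  · rintro ⟨h1, z, hz⟩
    have h2 : z = 0 := h hz
    subst h2
    have h3 : x = 0 := h1
    subst h3
    exact hz
  · intro h1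
    exact ⟨h h1, x, h1⟩

namespace IsProjectiveAlgebra

variable {F : Set (Set (ℝ × ℝ))}

theorem xAxis_mem (hF : IsProjectiveAlgebra F) : XAxis ∈ F := by
  rw [← proj1_univ]; exact hF.proj1_mem _ hF.univ_mem

theorem yAxis_mem (hF : IsProjectiveAlgebra F) : YAxis ∈ F := by
  rw [← proj2_univ]; exact hF.proj2_mem _ hF.univ_mem

/-- the direct product operation without the restriction to the axes -/
theorem dprod_mem' (hF : IsProjectiveAlgebra F) {A B : Set (ℝ × ℝ)} (hA : A ∈ F) (hB : B ∈ F) :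
    dprod A B ∈ F := by
  rw [← dprod_axes]
  exact hF.dprod_mem _ (hF.inter_mem _ hA _ hF.xAxis_mem) _ (hF.inter_mem _ hB _ hF.yAxis_mem)
    inter_subset_right inter_subset_right

end IsProjectiveAlgebra

namespace IsIso

variable {F G H : Set (Set (ℝ × ℝ))} {φ ψ : Set (ℝ × ℝ) → Set (ℝ × ℝ)}

theorem map_univ (h : IsIso F G φ) (hF : IsProjectiveAlgebra F) : φ Set.univ = Set.univ := by
  have h1 : φ (Set.univ ∪ Set.univᶜ) = Set.univ := by
    rw [h.map_union _ hF.univ_mem _ (hF.compl_mem _ hF.univ_mem), h.map_compl _ hF.univ_mem,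
      Set.union_compl_self]
  simpa using h1

theorem map_xAxis (h : IsIso F G φ) (hF : IsProjectiveAlgebra F) : φ XAxis = XAxis := by
  rw [← proj1_univ, h.map_proj1 _ hF.univ_mem, h.map_univ hF]

theorem map_yAxis (h : IsIso F G φ) (hF : IsProjectiveAlgebra F) : φ YAxis = YAxis := by
  rw [← proj2_univ, h.map_proj2 _ hF.univ_mem, h.map_univ hF]

theorem map_dprod' (h : IsIso F G φ) (hF : IsProjectiveAlgebra F) {A B : Set (ℝ × ℝ)}
    (hA : A ∈ F) (hB : B ∈ F) : φ (dprod A B) = dprod (φ A) (φ B) := by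
  rw [← dprod_axes A B, h.map_dprod _ (hF.inter_mem _ hA _ hF.xAxis_mem) _
    (hF.inter_mem _ hB _ hF.yAxis_mem) inter_subset_right inter_subset_right,
    h.map_inter _ hA _ hF.xAxis_mem, h.map_inter _ hB _ hF.yAxis_mem, h.map_xAxis hF,
    h.map_yAxis hF, dprod_axes]

theorem subset_xAxis (h : IsIso F G φ) {A : Set (ℝ × ℝ)} (hA : A ∈ F) (hAX : A ⊆ XAxis) :
    φ A ⊆ XAxis := by
  have h1 : φ A = proj1 (φ A) := by rw [← h.map_proj1 _ hA, proj1_eq_self hAX]
  rw [h1]; exact proj1_subset _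

theorem subset_yAxis (h : IsIso F G φ) {A : Set (ℝ × ℝ)} (hA : A ∈ F) (hAX : A ⊆ YAxis) :
    φ A ⊆ YAxis := by
  have h1 : φ A = proj2 (φ A) := by rw [← h.map_proj2 _ hA, proj2_eq_self hAX]
  rw [h1]; exact proj2_subset _

theorem refl (F : Set (Set (ℝ × ℝ))) : IsIso F F id where
  bij := Set.bijOn_id F
  map_compl := fun _ _ => rfl
  map_union := fun _ _ _ _ => rfl
  map_inter := fun _ _ _ _ => rfl
  map_proj1 := fun _ _ => rfl
  map_proj2 := fun _ _ => rfl
  map_dprod := fun _ _ _ _ _ _ => rfl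

theorem trans (h : IsIso F G φ) (h' : IsIso G H ψ) : IsIso F H (ψ ∘ φ) where
  bij := h'.bij.comp h.bij
  map_compl := fun S hS => by
    simp only [Function.comp]
    rw [h.map_compl S hS, h'.map_compl _ (h.bij.mapsTo hS)]
  map_union := fun S hS T hT => by
    simp only [Function.comp]
    rw [h.map_union S hS T hT, h'.map_union _ (h.bij.mapsTo hS) _ (h.bij.mapsTo hT)]
  map_inter := fun S hS T hT => by
    simp only [Function.comp]
    rw [h.map_inter S hS T hT, h'.map_inter _ (h.bij.mapsTo hS) _ (h.bij.mapsTo hT)]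
  map_proj1 := fun S hS => by
    simp only [Function.comp]
    rw [h.map_proj1 S hS, h'.map_proj1 _ (h.bij.mapsTo hS)]
  map_proj2 := fun S hS => by
    simp only [Function.comp]
    rw [h.map_proj2 S hS, h'.map_proj2 _ (h.bij.mapsTo hS)]
  map_dprod := fun A hA B hB h1 h2 => by
    simp only [Function.comp]
    rw [h.map_dprod A hA B hB h1 h2, h'.map_dprod _ (h.bij.mapsTo hA) _ (h.bij.mapsTo hB)
      (h.subset_xAxis hA h1) (h.subset_yAxis hB h2)]

theorem symm (h : IsIso F G φ) (hF : IsProjectiveAlgebra F) :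
    IsIso G F (Function.invFunOn φ F) := by
  have hm : ∀ S ∈ G, Function.invFunOn φ F S ∈ F := fun S hS =>
    Function.invFunOn_mem (h.bij.surjOn hS)
  have he : ∀ S ∈ G, φ (Function.invFunOn φ F S) = S := fun S hS =>
    Function.invFunOn_eq (h.bij.surjOn hS)
  have hl : ∀ S ∈ F, Function.invFunOn φ F (φ S) = S := fun S hS =>
    h.bij.injOn.leftInvOn_invFunOn hS
  refine ⟨?_, ?_, ?_, ?_, ?_, ?_, ?_⟩
  · refine ⟨fun S hS => hm S hS, ?_, ?_⟩
    · intro S hS T hT hST
      rw [← he S hS, ← he T hT, hST]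
    · intro S hS
      exact ⟨φ S, h.bij.mapsTo hS, hl S hS⟩
  · intro S hS
    rw [← hl _ (hF.compl_mem _ (hm S hS)), h.map_compl _ (hm S hS), he S hS]
  · intro S hS T hT
    rw [← hl _ (hF.union_mem _ (hm S hS) _ (hm T hT)), h.map_union _ (hm S hS) _ (hm T hT),
      he S hS, he T hT]
  · intro S hS T hT
    rw [← hl _ (hF.inter_mem _ (hm S hS) _ (hm T hT)), h.map_inter _ (hm S hS) _ (hm T hT),
      he S hS, he T hT]
  · intro S hS
    rw [← hl _ (hF.proj1_mem _ (hm S hS)), h.map_proj1 _ (hm S hS), he S hS]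
  · intro S hS
    rw [← hl _ (hF.proj2_mem _ (hm S hS)), h.map_proj2 _ (hm S hS), he S hS]
  · intro A hA B hB _ _
    rw [← hl _ (hF.dprod_mem' (hm A hA) (hm B hB)), h.map_dprod' hF (hm A hA) (hm B hB),
      he A hA, he B hB]

end IsIso

/-! ### Terms -/

/-- terms in `k` variables in the language of projective algebras -/
inductive Term (k : ℕ) : Type
  | var : Fin k → Term k
  | univ : Term k
  | compl : Term k → Term k
  | union : Term k → Term k → Term k
  | inter : Term k → Term k → Term k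
  | pr1 : Term k → Term k
  | pr2 : Term k → Term k
  | dpr : Term k → Term k → Term k

/-- the value of a term -/
def eval {k : ℕ} (S : Fin k → Set (ℝ × ℝ)) : Term k → Set (ℝ × ℝ)
  | .var i => S i
  | .univ => Set.univ
  | .compl s => (eval S s)ᶜ
  | .union s t => eval S s ∪ eval S t
  | .inter s t => eval S s ∩ eval S t
  | .pr1 s => proj1 (eval S s)
  | .pr2 s => proj2 (eval S s)
  | .dpr s t => dprod (eval S s) (eval S t)

/-- a code of a term, to see that there are only countably many terms -/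
def code {k : ℕ} : Term k → List ℕ
  | .var i => [0, i.val]
  | .univ => [1]
  | .compl s => 2 :: code s
  | .union s t => 3 :: (code s ++ code t)
  | .inter s t => 4 :: (code s ++ code t)
  | .pr1 s => 5 :: code s
  | .pr2 s => 6 :: code s
  | .dpr s t => 7 :: (code s ++ code t)

theorem code_append_inj {k : ℕ} (s t : Term k) (l m : List ℕ)
    (h : code s ++ l = code t ++ m) : s = t ∧ l = m := by
  induction s generalizing t l m with
  | var i =>
    cases t <;> simp [code] at h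
    exact ⟨by rw [Fin.ext h.1], h.2⟩
  | univ =>
    cases t <;> simp [code] at h
    exact ⟨rfl, h⟩
  | compl s ih =>
    cases t <;> simp [code] at h
    obtain ⟨h1, h2⟩ := ih _ _ _ h
    exact ⟨by rw [h1], h2⟩
  | pr1 s ih =>
    cases t <;> simp [code] at h
    obtain ⟨h1, h2⟩ := ih _ _ _ h
    exact ⟨by rw [h1], h2⟩
  | pr2 s ih =>
    cases t <;> simp [code] at h
    obtain ⟨h1, h2⟩ := ih _ _ _ h
    exact ⟨by rw [h1], h2⟩
  | union s1 s2 ih1 ih2 =>
    cases t <;> simp [code] at h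
    obtain ⟨h1, h2⟩ := ih1 _ _ _ h
    obtain ⟨h3, h4⟩ := ih2 _ _ _ h2
    exact ⟨by rw [h1, h3], h4⟩
  | inter s1 s2 ih1 ih2 =>
    cases t <;> simp [code] at h
    obtain ⟨h1, h2⟩ := ih1 _ _ _ h
    obtain ⟨h3, h4⟩ := ih2 _ _ _ h2
    exact ⟨by rw [h1, h3], h4⟩
  | dpr s1 s2 ih1 ih2 =>
    cases t <;> simp [code] at h
    obtain ⟨h1, h2⟩ := ih1 _ _ _ h
    obtain ⟨h3, h4⟩ := ih2 _ _ _ h2
    exact ⟨by rw [h1, h3], h4⟩

theorem code_injective {k : ℕ} : Function.Injective (code (k := k)) := by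
  intro s t h
  exact (code_append_inj s t [] [] (by rw [h])).1

instance term_countable (k : ℕ) : Countable (Term k) :=
  code_injective.countable

theorem eval_mem {k : ℕ} {F : Set (Set (ℝ × ℝ))} (hF : IsProjectiveAlgebra F)
    (S : Fin k → Set (ℝ × ℝ)) (hS : ∀ i, S i ∈ F) (t : Term k) : eval S t ∈ F := by
  induction t with
  | var i => exact hS i
  | univ => exact hF.univ_mem
  | compl s ih => exact hF.compl_mem _ ih
  | union s t ih1 ih2 => exact hF.union_mem _ ih1 _ ih2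
  | inter s t ih1 ih2 => exact hF.inter_mem _ ih1 _ ih2
  | pr1 s ih => exact hF.proj1_mem _ ih
  | pr2 s ih => exact hF.proj2_mem _ ih
  | dpr s t ih1 ih2 => exact hF.dprod_mem' ih1 ih2

theorem range_eval_isProjectiveAlgebra {k : ℕ} (S : Fin k → Set (ℝ × ℝ)) :
    IsProjectiveAlgebra (Set.range (eval S)) where
  univ_mem := ⟨.univ, rfl⟩
  compl_mem := by rintro _ ⟨s, rfl⟩; exact ⟨.compl s, rfl⟩
  union_mem := by rintro _ ⟨s, rfl⟩ _ ⟨t, rfl⟩; exact ⟨.union s t, rfl⟩
  inter_mem := by rintro _ ⟨s, rfl⟩ _ ⟨t, rfl⟩; exact ⟨.inter s t, rfl⟩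
  proj1_mem := by rintro _ ⟨s, rfl⟩; exact ⟨.pr1 s, rfl⟩
  proj2_mem := by rintro _ ⟨s, rfl⟩; exact ⟨.pr2 s, rfl⟩
  dprod_mem := by rintro _ ⟨s, rfl⟩ _ ⟨t, rfl⟩ _ _; exact ⟨.dpr s t, rfl⟩

theorem generated_eq_range {k : ℕ} (S : Fin k → Set (ℝ × ℝ)) :
    generated (Set.range S) = Set.range (eval S) := by
  apply Set.Subset.antisymm
  · apply generated_min (range_eval_isProjectiveAlgebra S)
    rintro _ ⟨i, rfl⟩
    exact ⟨.var i, rfl⟩
  · rintro _ ⟨t, rfl⟩
    exact eval_mem (generated_isProjectiveAlgebra _) S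
      (fun i => subset_generated _ (Set.mem_range_self i)) t

theorem map_eval {k : ℕ} {F G : Set (Set (ℝ × ℝ))} {φ : Set (ℝ × ℝ) → Set (ℝ × ℝ)}
    (h : IsIso F G φ) (hF : IsProjectiveAlgebra F) (S : Fin k → Set (ℝ × ℝ))
    (hS : ∀ i, S i ∈ F) (t : Term k) : φ (eval S t) = eval (fun i => φ (S i)) t := by
  induction t with
  | var i => rfl
  | univ => exact h.map_univ hF
  | compl s ih =>
    simp only [eval]
    rw [h.map_compl _ (eval_mem hF S hS s), ih]
  | union s t ih1 ih2 =>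
    simp only [eval]
    rw [h.map_union _ (eval_mem hF S hS s) _ (eval_mem hF S hS t), ih1, ih2]
  | inter s t ih1 ih2 =>
    simp only [eval]
    rw [h.map_inter _ (eval_mem hF S hS s) _ (eval_mem hF S hS t), ih1, ih2]
  | pr1 s ih =>
    simp only [eval]
    rw [h.map_proj1 _ (eval_mem hF S hS s), ih]
  | pr2 s ih =>
    simp only [eval]
    rw [h.map_proj2 _ (eval_mem hF S hS s), ih]
  | dpr s t ih1 ih2 =>
    simp only [eval]
    rw [h.map_dprod' hF (eval_mem hF S hS s) (eval_mem hF S hS t), ih1, ih2]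

/-- two families of generators with the same relations generate isomorphic algebras -/
theorem isomorphic_of_ker {k : ℕ} (S S' : Fin k → Set (ℝ × ℝ))
    (h : ∀ s t : Term k, eval S s = eval S t ↔ eval S' s = eval S' t) :
    Isomorphic (generated (Set.range S)) (generated (Set.range S')) := by
  classical
  rw [generated_eq_range, generated_eq_range]
  let φ : Set (ℝ × ℝ) → Set (ℝ × ℝ) := fun A =>
    if hA : ∃ t : Term k, eval S t = A then eval S' hA.choose else ∅
  have hφ : ∀ t, φ (eval S t) = eval S' t := by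
    intro t
    have hA : ∃ t' : Term k, eval S t' = eval S t := ⟨t, rfl⟩
    have h1 : φ (eval S t) = eval S' hA.choose := dif_pos hA
    rw [h1]
    exact (h _ _).1 hA.choose_spec
  refine ⟨φ, ⟨?_, ?_, ?_, ?_, ?_, ?_, ?_⟩⟩
  · refine ⟨?_, ?_, ?_⟩
    · rintro _ ⟨t, rfl⟩
      exact ⟨t, (hφ t).symm⟩
    · rintro _ ⟨s, rfl⟩ _ ⟨t, rfl⟩ hst
      rw [hφ, hφ] at hst
      exact (h s t).2 hst
    · rintro _ ⟨t, rfl⟩
      exact ⟨eval S t, ⟨t, rfl⟩, hφ t⟩
  · rintro _ ⟨s, rfl⟩
    exact (hφ (.compl s)).trans (by rw [hφ]; rfl)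
  · rintro _ ⟨s, rfl⟩ _ ⟨t, rfl⟩
    exact (hφ (.union s t)).trans (by rw [hφ, hφ]; rfl)
  · rintro _ ⟨s, rfl⟩ _ ⟨t, rfl⟩
    exact (hφ (.inter s t)).trans (by rw [hφ, hφ]; rfl)
  · rintro _ ⟨s, rfl⟩
    exact (hφ (.pr1 s)).trans (by rw [hφ]; rfl)
  · rintro _ ⟨s, rfl⟩
    exact (hφ (.pr2 s)).trans (by rw [hφ]; rfl)
  · rintro _ ⟨s, rfl⟩ _ ⟨t, rfl⟩ _ _
    exact (hφ (.dpr s t)).trans (by rw [hφ, hφ]; rfl)

/-! ### The plane sets which encode sets of natural numbers -/

/-- The plane set which encodes `A ⊆ ℕ`: the pairs `(n, n)` and `(n, n + 1)` for all natural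
numbers `n`, and the pairs `(n + 1, 0)` for `n ∈ A`. -/
def enc (A : Set ℕ) : Set (ℝ × ℝ) :=
  {p | (∃ n : ℕ, p.1 = n ∧ (p.2 = n ∨ p.2 = n + 1)) ∨ ∃ n ∈ A, p.1 = (n : ℝ) + 1 ∧ p.2 = 0}

/-- the term for the origin -/
def tO (k : ℕ) : Term k := .inter (.pr1 .univ) (.pr2 .univ)

/-- terms for the points `(n, 0)` and `(0, n)` -/
def tXY {k : ℕ} (s : Term k) : ℕ → Term k × Term k
  | 0 => (tO k, tO k)
  | n + 1 =>
    let X := (tXY s n).1
    let Y := (tXY s n).2
    let Y' : Term k := .inter (.inter (.pr2 (.inter s (.dpr X (.pr2 .univ)))) (.compl Y))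
      (.compl (tO k))
    (.inter (.pr1 (.inter s (.dpr (.pr1 .univ) Y'))) (.compl X), Y')

/-- the term which is empty if and only if `n` is not in `A` -/
def tD {k : ℕ} (s : Term k) (n : ℕ) : Term k := .inter s (.dpr (tXY s (n + 1)).1 (tO k))

theorem eval_tO {k : ℕ} (S : Fin k → Set (ℝ × ℝ)) : eval S (tO k) = {((0 : ℝ), (0 : ℝ))} := by
  ext ⟨x, y⟩
  simp [tO, eval, proj1, proj2]
  tauto

theorem eval_tXY {k : ℕ} (S : Fin k → Set (ℝ × ℝ)) (s : Term k) (A : Set ℕ)
    (hs : eval S s = enc A) (n : ℕ) :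
    eval S (tXY s n).1 = {((n : ℝ), (0 : ℝ))} ∧ eval S (tXY s n).2 = {((0 : ℝ), (n : ℝ))} := by
  induction n with
  | zero => simp [tXY, eval_tO]
  | succ n ih =>
    obtain ⟨ih1, ih2⟩ := ih
    have hY : eval S (tXY s (n + 1)).2 = {((0 : ℝ), ((n + 1 : ℕ) : ℝ))} := by
      simp only [tXY, eval, eval_tO, ih1, ih2, hs]
      ext ⟨x, y⟩
      simp only [mem_inter_iff, mem_compl_iff, mem_singleton_iff, Prod.mk.injEq, proj2, dprod,
        mem_setOf_eq, enc, mem_univ, exists_const, and_true, Nat.cast_add, Nat.cast_one]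
      constructor
      · rintro ⟨⟨⟨hx, z, hz, hz'⟩, h2⟩, h3⟩
        subst hx
        refine ⟨rfl, ?_⟩
        subst hz'
        rcases hz with ⟨m, hm, hm'⟩ | ⟨m, _, hm, hm'⟩
        · have : (n : ℝ) = m := hm
          have hnm : n = m := by exact_mod_cast this
          subst hnm
          rcases hm' with h | h
          · exact absurd ⟨rfl, h⟩ h2
          · exact h
        · exact absurd ⟨rfl, hm'⟩ h3
      · rintro ⟨hx, hy⟩
        subst hx
        subst hy
        refine ⟨⟨⟨rfl, n, Or.inl ⟨n, rfl, Or.inr rfl⟩, rfl⟩, ?_⟩, ?_⟩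
        · rintro ⟨_, h⟩
          linarith
        · rintro ⟨_, h⟩
          have : (0 : ℝ) ≤ n := Nat.cast_nonneg n
          linarith
    refine ⟨?_, hY⟩
    have h1 : (tXY s (n + 1)).1 = .inter (.pr1 (.inter s (.dpr (.pr1 .univ) (tXY s (n + 1)).2)))
      (.compl (tXY s n).1) := rfl
    rw [h1]
    simp only [eval, hY, ih1, hs]
    ext ⟨x, y⟩
    simp only [mem_inter_iff, mem_compl_iff, mem_singleton_iff, Prod.mk.injEq, proj1, dprod,
      mem_setOf_eq, enc, mem_univ, exists_const, and_true, Nat.cast_add, Nat.cast_one, true_and]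
    constructor
    · rintro ⟨⟨hy, z, hz, hz'⟩, h2⟩
      subst hy
      subst hz'
      refine ⟨?_, rfl⟩
      rcases hz with ⟨m, hm, hm'⟩ | ⟨m, _, hm, hm'⟩
      · rcases hm' with h | h
        · rw [hm, ← h]
        · exfalso
          apply h2
          refine ⟨?_, rfl⟩
          rw [hm]; linarith
      · exfalso
        have : (0 : ℝ) ≤ n := Nat.cast_nonneg n
        linarith
    · rintro ⟨hx, hy⟩
      subst hx
      subst hy
      refine ⟨⟨rfl, n + 1, Or.inl ⟨n + 1, by push_cast; rfl, Or.inl (by push_cast; rfl)⟩, rfl⟩, ?_⟩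
      rintro ⟨h, _⟩
      linarith

theorem eval_tD {k : ℕ} (S : Fin k → Set (ℝ × ℝ)) (s : Term k) (A : Set ℕ)
    (hs : eval S s = enc A) (n : ℕ) : eval S (tD s n) = ∅ ↔ n ∉ A := by
  have h1 := (eval_tXY S s A hs (n + 1)).1
  have h2 : eval S (tD s n) = enc A ∩ dprod {(((n + 1 : ℕ) : ℝ), (0 : ℝ))} {((0 : ℝ), (0 : ℝ))} := by
    simp only [tD, eval, h1, hs, eval_tO]
  rw [h2]
  constructor
  · intro h hn
    have : (((n : ℝ) + 1), (0 : ℝ)) ∈
        enc A ∩ dprod {(((n + 1 : ℕ) : ℝ), (0 : ℝ))} {((0 : ℝ), (0 : ℝ))} := by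
      refine ⟨Or.inr ⟨n, hn, rfl, rfl⟩, ?_, ?_⟩
      · simp
      · simp
    rw [h] at this
    exact this
  · intro hn
    rw [Set.eq_empty_iff_forall_notMem]
    rintro ⟨x, y⟩ ⟨h3, h4, h5⟩
    simp only [mem_singleton_iff, Prod.mk.injEq, and_true, true_and] at h4 h5
    subst h4
    subst h5
    rcases h3 with ⟨m, hm, hm'⟩ | ⟨m, hmA, hm, _⟩
    · have h6 : (0 : ℝ) ≤ n := Nat.cast_nonneg n
      simp only [Nat.cast_add, Nat.cast_one] at hm hm'
      rcases hm' with h | h
      · linarith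
      · linarith
    · have h6 : ((n : ℝ) + 1) = (m : ℝ) + 1 := by simpa using hm
      have h7 : n = m := by
        have : (n : ℝ) = m := by linarith
        exact_mod_cast this
      subst h7
      exact hn hmA

/-- the relations between the generators determine the encoded set -/
theorem enc_eq_of_ker {k : ℕ} (i : Fin k) {A B : Set ℕ}
    (h : ∀ s t : Term k, eval (fun _ => enc A) s = eval (fun _ => enc A) t ↔
      eval (fun _ => enc B) s = eval (fun _ => enc B) t) : A = B := by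
  ext n
  have h1 := h (tD (.var i) n) (.compl .univ)
  have h2 : eval (fun _ : Fin k => enc A) (.compl .univ) = ∅ := by simp [eval]
  have h3 : eval (fun _ : Fin k => enc B) (.compl .univ) = ∅ := by simp [eval]
  rw [h2, h3, eval_tD _ (.var i) A rfl, eval_tD _ (.var i) B rfl] at h1
  tauto

/-- For every projective algebra `U`: if the algebra generated by `enc A` embeds into `U` by `φ`,
then `φ (enc A)` determines `A`. -/
theorem enc_inj {k : ℕ} (i : Fin k) {A B : Set ℕ} {V W : Set (Set (ℝ × ℝ))}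
    {φ ψ : Set (ℝ × ℝ) → Set (ℝ × ℝ)}
    (hφ : IsIso (generated (Set.range fun _ : Fin k => enc A)) V φ)
    (hψ : IsIso (generated (Set.range fun _ : Fin k => enc B)) W ψ)
    (h : φ (enc A) = ψ (enc B)) : A = B := by
  have hA : ∀ t : Term k, φ (eval (fun _ => enc A) t) = eval (fun _ => φ (enc A)) t := fun t =>
    map_eval hφ (generated_isProjectiveAlgebra _) (fun _ => enc A)
      (fun i => subset_generated _ (Set.mem_range_self i)) t
  have hB : ∀ t : Term k, ψ (eval (fun _ => enc B) t) = eval (fun _ => φ (enc A)) t := fun t => by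
    rw [h]
    exact map_eval hψ (generated_isProjectiveAlgebra _) (fun _ => enc B)
      (fun i => subset_generated _ (Set.mem_range_self i)) t
  apply enc_eq_of_ker i
  intro s t
  have hmA : ∀ t : Term k, eval (fun _ => enc A) t ∈
      generated (Set.range fun _ : Fin k => enc A) := fun t => by
    rw [generated_eq_range]; exact ⟨t, rfl⟩
  have hmB : ∀ t : Term k, eval (fun _ => enc B) t ∈
      generated (Set.range fun _ : Fin k => enc B) := fun t => by
    rw [generated_eq_range]; exact ⟨t, rfl⟩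
  rw [← hφ.bij.injOn.eq_iff (hmA s) (hmA t), ← hψ.bij.injOn.eq_iff (hmB s) (hmB t), hA, hA, hB, hB]

end Pool.Agent.H699_PA
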