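import Mathlib
import Pool.Agent.H699_PA.Basic

set_option autoImplicit false

/-!
# The number of isomorphism types of projective algebras generated by `k` plane sets

For every `k ≥ 1` it is `2 ^ ℵ₀`.
-/

namespace Pool.Agent.H699_PA.ContinuumTypes

open Set Cardinal Pool.Agent.H699_PA

/-- the projective algebras which are generated by `k` subsets of the plane -/
def KGenerated (k : ℕ) : Type :=
  {F : Set (Set (ℝ × ℝ)) // ∃ S : Fin k → Set (ℝ × ℝ), F = generated (Set.range S)}

theorem KGenerated.isProjectiveAlgebra {k : ℕ} (F : KGenerated k) : IsProjectiveAlgebra F.1 := by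
  obtain ⟨_, S, rfl⟩ := F
  exact generated_isProjectiveAlgebra _

/-- the equivalence relation `isomorphic` on the projective algebras generated by `k` plane sets -/
def isoSetoid (k : ℕ) : Setoid (KGenerated k) where
  r F G := Isomorphic F.1 G.1
  iseqv :=
    { refl := fun F => ⟨id, IsIso.refl F.1⟩
      symm := fun {F _} h => ⟨_, h.choose_spec.symm F.isProjectiveAlgebra⟩
      trans := fun h h' => ⟨_, h.choose_spec.trans h'.choose_spec⟩ }

/-- generators of a representative of an isomorphism class -/
noncomputable def gens {k : ℕ} (q : Quotient (isoSetoid k)) : Fin k → Set (ℝ × ℝ) :=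
  q.out.2.choose

theorem gens_spec {k : ℕ} (F : KGenerated k) :
    Isomorphic F.1 (generated (Set.range (gens (Quotient.mk (isoSetoid k) F)))) := by
  have h1 : Isomorphic F.1 (Quotient.mk (isoSetoid k) F).out.1 :=
    (isoSetoid k).symm (Quotient.mk_out (s := isoSetoid k) F)
  have h2 := (Quotient.mk (isoSetoid k) F).out.2.choose_spec
  rw [h2] at h1
  exact h1

theorem gens_inj {k : ℕ} {q r : Quotient (isoSetoid k)}
    (h : Isomorphic (generated (Set.range (gens q))) (generated (Set.range (gens r)))) :
    q = r := by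
  rw [← Quotient.out_eq q, ← Quotient.out_eq r]
  apply Quotient.sound (s := isoSetoid k)
  show Isomorphic q.out.1 r.out.1
  rw [q.out.2.choose_spec, r.out.2.choose_spec]
  exact h

theorem upper (k : ℕ) : #(Quotient (isoSetoid k)) ≤ 𝔠 := by
  let f : Quotient (isoSetoid k) → Set (Term k × Term k) := fun q =>
    {p | eval (gens q) p.1 = eval (gens q) p.2}
  have hf : Function.Injective f := by
    intro q r hqr
    apply gens_inj
    apply isomorphic_of_ker
    intro s t
    have : ((s, t) ∈ f q) = ((s, t) ∈ f r) := by rw [hqr]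
    exact iff_of_eq this
  refine (mk_le_of_injective hf).trans ?_
  rw [mk_set, continuum]
  exact power_le_power_left two_ne_zero (mk_le_aleph0 (α := Term k × Term k))

theorem lower (k : ℕ) (hk : 1 ≤ k) : 𝔠 ≤ #(Quotient (isoSetoid k)) := by
  have i : Fin k := ⟨0, hk⟩
  let F : Set ℕ → KGenerated k := fun A => ⟨_, fun _ => enc A, rfl⟩
  have h1 : ∀ A : Set ℕ, ∃ φ : Set (ℝ × ℝ) → Set (ℝ × ℝ),
      IsIso (F A).1 (generated (Set.range (gens (Quotient.mk (isoSetoid k) (F A))))) φ :=
    fun A => gens_spec (F A)
  choose φ hφ using h1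
  have h2 : ∀ A : Set ℕ, ∃ t : Term k,
      eval (gens (Quotient.mk (isoSetoid k) (F A))) t = φ A (enc A) := by
    intro A
    have h3 : enc A ∈ (F A).1 := subset_generated _ ⟨i, rfl⟩
    have h4 := (hφ A).bij.mapsTo h3
    rw [generated_eq_range] at h4
    exact h4
  choose t ht using h2
  let g : Set ℕ → Quotient (isoSetoid k) × Term k := fun A =>
    (Quotient.mk (isoSetoid k) (F A), t A)
  have hg : Function.Injective g := by
    intro A B hAB
    have h3 : Quotient.mk (isoSetoid k) (F A) = Quotient.mk (isoSetoid k) (F B) :=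
      congrArg Prod.fst hAB
    have h4 : t A = t B := congrArg Prod.snd hAB
    refine enc_inj i (hφ A) (hφ B) ?_
    rw [← ht A, ← ht B, h3, h4]
  have h5 := mk_le_of_injective hg
  rw [mk_prod, lift_id, lift_id, mk_set, mk_nat, two_power_aleph0] at h5
  by_contra h
  rw [not_le] at h
  have h6 : #(Quotient (isoSetoid k)) * #(Term k) < 𝔠 :=
    mul_lt_of_lt aleph0_le_continuum h (lt_of_le_of_lt mk_le_aleph0 aleph0_lt_continuum)
  exact absurd h5 (not_le.2 h6)

/-- **For every `k ≥ 1` there are exactly `2 ^ ℵ₀` isomorphism classes of projective algebras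
generated by `k` subsets of the plane.** -/
theorem result (k : ℕ) (hk : 1 ≤ k) : #(Quotient (isoSetoid k)) = 𝔠 :=
  le_antisymm (upper k) (lower k hk)

end Pool.Agent.H699_PA.ContinuumTypes
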